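import Pool.Agent.Y184.RB.Base2

/-!
Smoothing of continuous plurisubharmonic functions in the space of dimension n
(the Taylor lemmas are copied from Pool.Agent.H788R3.Bp.Levi).
-/

set_option autoImplicit false

open MeasureTheory Set Metric Complex Filter Topology Asymptotics
open scoped ContDiff Convolution

namespace Pool.Agent.Y475.RB

open Pool.Agent.Y184.RB

/-- second order Taylor remainder -/
theorem taylor_two {h : ℂ → ℝ} (hh : ContDiff ℝ 2 h) :
    (fun x : ℂ => h x - h 0 - fderiv ℝ h 0 x - (1 / 2) * fderiv ℝ (fderiv ℝ h) 0 x x) =o[𝓝 0]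
      fun x : ℂ => ‖x‖ ^ 2 := by
  set B := fderiv ℝ (fderiv ℝ h) 0 with hB
  have hd1 : ContDiff ℝ 1 (fderiv ℝ h) := hh.fderiv_right (by norm_num)
  have hBd : HasFDerivAt (fderiv ℝ h) B 0 := (hd1.differentiable (by norm_num) 0).hasFDerivAt
  have hsymm : ∀ u v : ℂ, B u v = B v u := by
    intro u v
    have : IsSymmSndFDerivAt ℝ h 0 := (hh.contDiffAt).isSymmSndFDerivAt (by simp)
    exact this u v
  have hdiff : Differentiable ℝ h := hh.differentiable (by norm_num)
  rw [isLittleO_iff]
  intro ε hε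
  have ho := hBd.isLittleO
  rw [isLittleO_iff] at ho
  obtain ⟨δ, hδ, hball⟩ := Metric.eventually_nhds_iff_ball.mp (ho hε)
  rw [Metric.eventually_nhds_iff_ball]
  refine ⟨δ, hδ, fun x hx => ?_⟩
  set R : ℂ → ℝ := fun x => h x - h 0 - fderiv ℝ h 0 x - (1 / 2) * B x x with hR
  have hRd : ∀ y : ℂ, HasFDerivAt R (fderiv ℝ h y - fderiv ℝ h 0 - B y) y := by
    intro y
    have h1 : HasFDerivAt h (fderiv ℝ h y) y := (hdiff y).hasFDerivAt
    have h2 : HasFDerivAt (fun x : ℂ => fderiv ℝ h 0 x) (fderiv ℝ h 0) y := (fderiv ℝ h 0).hasFDerivAt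
    have h3 : HasFDerivAt (fun x : ℂ => B x x) (B.precompR ℂ y (ContinuousLinearMap.id ℝ ℂ) + B.precompL ℂ (ContinuousLinearMap.id ℝ ℂ) y) y := by
      exact B.hasFDerivAt_of_bilinear (hasFDerivAt_id y) (hasFDerivAt_id y)
    have h4 := ((h1.sub_const (h 0)).sub h2).sub (h3.const_mul (1 / 2))
    have h5 : (fderiv ℝ h y - fderiv ℝ h 0 - (1 / 2 : ℝ) • (B.precompR ℂ y (ContinuousLinearMap.id ℝ ℂ) +
        B.precompL ℂ (ContinuousLinearMap.id ℝ ℂ) y)) = fderiv ℝ h y - fderiv ℝ h 0 - B y := by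
      ext v
      all_goals
        simp [ContinuousLinearMap.precompR_apply, ContinuousLinearMap.precompL_apply]
        rw [hsymm _ y]
        ring
    rw [h5] at h4
    exact h4
  have hseg : ∀ y ∈ segment ℝ (0:ℂ) x, ‖fderiv ℝ h y - fderiv ℝ h 0 - B y‖ ≤ ε * ‖x‖ := by
    intro y hy
    have hyx : ‖y‖ ≤ ‖x‖ := by
      obtain ⟨s, t, hs, ht, hst, rfl⟩ := hy
      rw [smul_zero, zero_add, norm_smul, Real.norm_of_nonneg ht]
      exact mul_le_of_le_one_left (norm_nonneg _) (by linarith)
    have hyb : y ∈ ball (0:ℂ) δ := by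
      rw [mem_ball_zero_iff] at hx ⊢
      linarith
    have := hball y hyb
    rw [sub_zero] at this
    calc ‖fderiv ℝ h y - fderiv ℝ h 0 - B y‖ ≤ ε * ‖y‖ := this
      _ ≤ ε * ‖x‖ := by gcongr
  have hmv := (convex_segment (0:ℂ) x).norm_image_sub_le_of_norm_hasFDerivWithin_le (f := R)
    (fun y _ => (hRd y).hasFDerivWithinAt) hseg (left_mem_segment ℝ 0 x) (right_mem_segment ℝ 0 x)
  have hR0 : R 0 = 0 := by simp [hR]
  rw [hR0, sub_zero, sub_zero] at hmv
  calc ‖R x‖ ≤ ε * ‖x‖ * ‖x‖ := hmv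
    _ = ε * ‖‖x‖ ^ 2‖ := by rw [Real.norm_of_nonneg (by positivity)]; ring

theorem avg_zero_of_pow {n : ℕ} (hn : 0 < n) (r : ℝ) :
    Real.circleAverage (fun z : ℂ => z ^ n) 0 r = 0 := by
  have h : DiffContOnCl ℂ (fun z : ℂ => z ^ n) (ball 0 |r|) :=
    (differentiable_id.pow n).diffContOnCl
  rw [h.circleAverage]
  simp [hn.ne']

theorem avg_clm (l : ℂ →L[ℝ] ℝ) (n : ℕ) (hn : 0 < n) (r : ℝ) :
    Real.circleAverage (fun z : ℂ => l (z ^ n)) 0 r = 0 := by
  have hi : CircleIntegrable (fun z : ℂ => z ^ n) 0 r :=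
    (continuous_pow n).continuousOn.circleIntegrable'
  have := l.circleAverage_comp_comm hi
  rw [avg_zero_of_pow hn, map_zero] at this
  exact this

/-- the sub-mean value property implies nonnegative Laplacian -/
theorem laplacian_nonneg {h : ℂ → ℝ} (hh : ContDiff ℝ 2 h)
    (hsub : ∀ᶠ r in 𝓝[>] (0:ℝ), h 0 ≤ Real.circleAverage h 0 r) :
    0 ≤ fderiv ℝ (fderiv ℝ h) 0 1 1 + fderiv ℝ (fderiv ℝ h) 0 Complex.I Complex.I := by
  set B := fderiv ℝ (fderiv ℝ h) 0 with hB
  have hsymm : ∀ u v : ℂ, B u v = B v u := by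
    intro u v
    have : IsSymmSndFDerivAt ℝ h 0 := (hh.contDiffAt).isSymmSndFDerivAt (by simp)
    exact this u v
  by_contra hneg
  push Not at hneg
  set Δ := B 1 1 + B Complex.I Complex.I with hΔ
  have hto := taylor_two hh
  rw [isLittleO_iff] at hto
  have hε : 0 < -Δ / 8 := by linarith
  obtain ⟨δ, hδ, hball⟩ := Metric.eventually_nhds_iff_ball.mp (hto hε)
  have hev : ∀ᶠ r in 𝓝[>] (0:ℝ), r ∈ Ioo 0 δ := Ioo_mem_nhdsGT hδ
  obtain ⟨r, hr1, hr2⟩ := (hsub.and hev).exists
  have hr0 : 0 < r := hr2.1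
  -- the comparison function
  have hBform : ∀ z : ℂ, B z z = ‖z‖ ^ 2 * (Δ / 2) + ((B 1 1 - B Complex.I Complex.I) / 2) * (z ^ 2).re
      + B 1 Complex.I * (z ^ 2).im := by
    intro z
    have hz : z = z.re • (1:ℂ) + z.im • Complex.I := by
      simp [Complex.ext_iff]
    have h1 : B z z = z.re * (z.re * B 1 1 + z.im * B 1 Complex.I) + z.im * (z.re * B Complex.I 1 + z.im * B Complex.I Complex.I) := by
      conv_lhs => rw [hz]
      simp only [map_add, map_smul, ContinuousLinearMap.add_apply, ContinuousLinearMap.smul_apply, smul_eq_mul]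
      ring
    rw [h1, hsymm Complex.I 1, hΔ, ← Complex.normSq_eq_norm_sq, Complex.normSq_apply, sq z, Complex.mul_re, Complex.mul_im]
    ring
  set l1 : ℂ →L[ℝ] ℝ := fderiv ℝ h 0 with hl1
  set l2 : ℂ →L[ℝ] ℝ := (1 / 2 : ℝ) • (((B 1 1 - B Complex.I Complex.I) / 2) • Complex.reCLM + (B 1 Complex.I) • Complex.imCLM) with hl2
  have hup : ∀ z ∈ sphere (0:ℂ) |r|, h z ≤ h 0 + r ^ 2 * (Δ / 4) + (-Δ / 8) * r ^ 2 + (l1 (z ^ 1) + l2 (z ^ 2)) := by
    intro z hz
    have hz' : ‖z‖ = r := by simpa [abs_of_pos hr0] using hz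
    have h1 := hball z (by rw [mem_ball_zero_iff, hz']; exact hr2.2)
    rw [hz', Real.norm_of_nonneg (by positivity : (0:ℝ) ≤ r ^ 2), Real.norm_eq_abs] at h1
    have h2 := (abs_le.mp h1).2
    have h3 := hBform z
    rw [hz'] at h3
    have h4 : l2 (z ^ 2) = (1 / 2) * (((B 1 1 - B Complex.I Complex.I) / 2) * (z ^ 2).re + B 1 Complex.I * (z ^ 2).im) := by
      simp [hl2]
      ring
    rw [pow_one, h4]
    have h5 : h z - h 0 - l1 z - 1 / 2 * (B z) z ≤ -Δ / 8 * r ^ 2 := h2
    rw [h3] at h5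
    linarith
  have hc1 : Continuous (fun z : ℂ => h 0 + r ^ 2 * (Δ / 4) + (-Δ / 8) * r ^ 2 + (l1 (z ^ 1) + l2 (z ^ 2))) := by
    fun_prop
  have havg : Real.circleAverage h 0 r ≤ h 0 + r ^ 2 * (Δ / 4) + (-Δ / 8) * r ^ 2 := by
    calc Real.circleAverage h 0 r ≤ Real.circleAverage (fun z : ℂ => h 0 + r ^ 2 * (Δ / 4) + (-Δ / 8) * r ^ 2 + (l1 (z ^ 1) + l2 (z ^ 2))) 0 r :=
          Real.circleAverage_mono (hh.continuous.continuousOn.circleIntegrable') (hc1.continuousOn.circleIntegrable') hup
      _ = _ := by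
          have i0 : CircleIntegrable (fun _ : ℂ => h 0 + r ^ 2 * (Δ / 4) + (-Δ / 8) * r ^ 2) 0 r :=
            continuousOn_const.circleIntegrable'
          have i1 : CircleIntegrable (fun z : ℂ => l1 (z ^ 1)) 0 r :=
            (by fun_prop : Continuous (fun z : ℂ => l1 (z ^ 1))).continuousOn.circleIntegrable'
          have i2 : CircleIntegrable (fun z : ℂ => l2 (z ^ 2)) 0 r :=
            (by fun_prop : Continuous (fun z : ℂ => l2 (z ^ 2))).continuousOn.circleIntegrable'
          have i12 : CircleIntegrable (fun z : ℂ => l1 (z ^ 1) + l2 (z ^ 2)) 0 r := i1.add i2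
          rw [Real.circleAverage_fun_add i0 i12, Real.circleAverage_fun_add i1 i2,
            Real.circleAverage_const, avg_clm l1 1 one_pos, avg_clm l2 2 two_pos]
          ring
  have h6 : 0 < r ^ 2 := by positivity
  nlinarith


theorem lap_eq (h : ℂ → ℝ) : Laplacian.laplacian h 0 =
    fderiv ℝ (fderiv ℝ h) 0 1 1 + fderiv ℝ (fderiv ℝ h) 0 Complex.I Complex.I := by
  have h1 := congrFun (InnerProductSpace.laplacian_eq_iteratedFDeriv_complexPlane h) 0
  rw [h1]
  simp [iteratedFDeriv_two_apply]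

/-- the submean value property of the convolution -/
theorem conv_sub {n : ℕ} {G : En n → ℝ} {K : Set (En n)} (hK : IsCompact K) (hg : ContinuousOn G K)
    (φ : ContDiffBump (0 : En n)) {z v : En n}
    (h : ∀ t : En n, ‖t‖ < φ.rOut → K.indicator G (z - t) ≤
      Real.circleAverage (fun ζ : ℂ => K.indicator G (z - t + ζ • v)) 0 1) :
    (φ.normed volume ⋆[ContinuousLinearMap.lsmul ℝ ℝ, volume] K.indicator G) z ≤
      Real.circleAverage (fun ζ : ℂ =>
        (φ.normed volume ⋆[ContinuousLinearMap.lsmul ℝ ℝ, volume] K.indicator G) (z + ζ • v)) 0 1 := by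
  obtain ⟨u, hu⟩ : ∃ u, u = K.indicator G := ⟨_, rfl⟩
  rw [← hu] at h ⊢
  have hum : Measurable u := by
    classical
    rw [hu, ← Set.piecewise_eq_indicator]
    exact hg.measurable_piecewise continuousOn_const hK.measurableSet
  obtain ⟨M, hM⟩ : ∃ M : ℝ, ∀ z, ‖u z‖ ≤ M := by
    obtain ⟨M, hM⟩ := hK.exists_bound_of_continuousOn hg
    refine ⟨max M 0, fun z => ?_⟩
    rw [hu]
    by_cases hz : z ∈ K
    · rw [Set.indicator_of_mem hz]
      exact (hM z hz).trans (le_max_left _ _)
    · rw [Set.indicator_of_notMem hz, norm_zero]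
      exact le_max_right _ _
  have hM0 : 0 ≤ M := (norm_nonneg _).trans (hM 0)
  obtain ⟨ψ, hψ⟩ : ∃ ψ : En n → ℝ, ψ = φ.normed volume := ⟨_, rfl⟩
  have hψc : Continuous ψ := hψ ▸ (φ.contDiff_normed (n := 0)).continuous
  have hψi : Integrable ψ := hψ ▸ φ.integrable_normed
  have hψ0 : ∀ t, 0 ≤ ψ t := fun t => hψ ▸ φ.nonneg_normed t
  rw [← hψ]
  have hpi : (0 : ℝ) ≤ 2 * Real.pi := by positivity
  have hI : Integrable (fun q : ℝ × En n => ψ q.2 * u (z + circleMap 0 1 q.1 • v - q.2))
      ((volume.restrict (Ioc (0:ℝ) (2 * Real.pi))).prod (volume : Measure (En n))) := by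
    have h1 : Integrable (fun q : ℝ × En n => (fun _ : ℝ => M) q.1 * ψ q.2)
        ((volume.restrict (Ioc (0:ℝ) (2 * Real.pi))).prod (volume : Measure (En n))) :=
      Integrable.mul_prod (f := fun _ : ℝ => M) (g := ψ) (integrable_const M) hψi
    refine h1.mono ?_ (Eventually.of_forall fun q => ?_)
    · apply Measurable.aestronglyMeasurable
      have m2 : Measurable fun q : ℝ × En n => ψ q.2 := (hψc.comp continuous_snd).measurable
      have m3 : Measurable fun q : ℝ × En n => z + circleMap 0 1 q.1 • v - q.2 := by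
        have c3 : Continuous fun q : ℝ × En n => z + circleMap 0 1 q.1 • v - q.2 := by
          have := continuous_circleMap 0 1
          fun_prop
        exact c3.measurable
      exact m2.mul (hum.comp m3)
    · rw [norm_mul, norm_mul, Real.norm_of_nonneg hM0, mul_comm M]
      exact mul_le_mul_of_nonneg_left (hM _) (norm_nonneg _)
  have e1 : Real.circleAverage (fun ζ : ℂ =>
      (ψ ⋆[ContinuousLinearMap.lsmul ℝ ℝ, volume] u) (z + ζ • v)) 0 1 =
      (2 * Real.pi)⁻¹ * ∫ t, ∫ θ in Ioc (0:ℝ) (2 * Real.pi), ψ t * u (z + circleMap 0 1 θ • v - t) := by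
    rw [Real.circleAverage_def, smul_eq_mul]
    congr 1
    rw [← integral_integral_swap (f := fun θ t => ψ t * u (z + circleMap 0 1 θ • v - t)) hI,
      intervalIntegral.integral_of_le hpi]
    rfl
  rw [e1, ← integral_const_mul]
  have hI1 : Integrable fun t => ψ t * u (z - t) := by
    refine (hψi.const_mul M).mono ?_ (Eventually.of_forall fun t => ?_)
    · exact ((hψc.measurable).mul (hum.comp (measurable_const.sub measurable_id))).aestronglyMeasurable
    · rw [norm_mul, norm_mul, Real.norm_of_nonneg hM0, mul_comm M]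
      exact mul_le_mul_of_nonneg_left (hM _) (norm_nonneg _)
  have hI2 : Integrable fun t => (2 * Real.pi)⁻¹ *
      ∫ θ in Ioc (0:ℝ) (2 * Real.pi), ψ t * u (z + circleMap 0 1 θ • v - t) :=
    (hI.integral_prod_right).const_mul _
  show ∫ t, ψ t * u (z - t) ≤ _
  refine integral_mono hI1 hI2 fun t => ?_
  simp only
  rw [integral_const_mul]
  by_cases ht : ‖t‖ < φ.rOut
  · have h1 := h t ht
    rw [Real.circleAverage_def, smul_eq_mul, intervalIntegral.integral_of_le hpi] at h1
    have h2 : ∀ θ : ℝ, u (z + circleMap 0 1 θ • v - t) = u (z - t + circleMap 0 1 θ • v) := by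
      intro θ
      congr 1
      abel
    simp_rw [h2]
    calc ψ t * u (z - t) ≤ ψ t * ((2 * Real.pi)⁻¹ *
        ∫ θ in Ioc (0:ℝ) (2 * Real.pi), u (z - t + circleMap 0 1 θ • v)) :=
          mul_le_mul_of_nonneg_left h1 (hψ0 t)
      _ = _ := by ring
  · have h0 : ψ t = 0 := by
      rw [hψ]
      apply Function.notMem_support.1
      rw [φ.support_normed_eq, mem_ball, dist_zero_right]
      exact ht
    simp [h0]

theorem t_SmE : StSmE := by
  intro n G z0 r hr hG hsub ε hε
  set K : Set (En n) := closedBall z0 (3 * r / 4) with hKd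
  have hK : IsCompact K := isCompact_closedBall _ _
  have hKsub : K ⊆ ball z0 r := closedBall_subset_ball (by linarith)
  have hGK : ContinuousOn G K := hG.mono hKsub
  set δ := r / 8 with hδd
  have hδ : 0 < δ := by positivity
  have huc := hK.uniformContinuousOn_of_continuous hGK
  rw [Metric.uniformContinuousOn_iff] at huc
  obtain ⟨η, hη, huc⟩ := huc (ε / 2) (by positivity)
  set s := min δ η with hsd
  have hs0 : 0 < s := lt_min hδ hη
  have hsδ : s ≤ δ := min_le_left _ _
  have hsη : s ≤ η := min_le_right _ _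
  let φ : ContDiffBump (0 : En n) := ⟨s / 2, s, by positivity, by linarith⟩
  have hφ : φ.rOut = s := rfl
  have hint : LocallyIntegrable (K.indicator G) volume := by
    apply Integrable.locallyIntegrable
    rw [integrable_indicator_iff hK.measurableSet]
    exact hGK.integrableOn_compact hK
  set H : En n → ℝ := (φ.normed volume ⋆[ContinuousLinearMap.lsmul ℝ ℝ, volume] K.indicator G) with hH
  have hHs : ContDiff ℝ ∞ H :=
    φ.hasCompactSupport_normed.contDiff_convolution_left _ φ.contDiff_normed hint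
  have hin : ∀ z ∈ ball z0 (r / 2), ∀ t : En n, ‖t‖ < δ → ∀ w : En n, ‖w‖ < δ → z - t + w ∈ K := by
    intro z hz t ht w hw
    rw [hKd, mem_closedBall, dist_eq_norm]
    rw [mem_ball, dist_eq_norm] at hz
    have h1 : z - t + w - z0 = (z - z0) + (w - t) := by abel
    rw [h1]
    have h2 := norm_add_le (z - z0) (w - t)
    have h3 := norm_sub_le w t
    linarith
  refine ⟨H, hHs, fun z hz => ⟨?_, fun v => ?_⟩⟩
  · have hzK : z ∈ K := by
      have := hin z hz 0 (by simpa using hδ) 0 (by simpa using hδ)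
      simpa using this
    have h1 : dist (H z) (K.indicator G z) ≤ ε / 2 := by
      rw [hH]
      apply ContDiffBump.dist_normed_convolution_le
      · exact hint.aestronglyMeasurable
      · intro y hy
        have hyK : y ∈ K := by
          rw [mem_ball, dist_eq_norm] at hy
          have h2 := hin z hz 0 (by simpa using hδ) (y - z) (hy.trans_le hsδ)
          have h3 : z - 0 + (y - z) = y := by abel
          rwa [h3] at h2
        rw [Set.indicator_of_mem hyK, Set.indicator_of_mem hzK]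
        apply (huc y hyK z hzK _).le
        rw [mem_ball, hφ] at hy
        linarith
    rw [Set.indicator_of_mem hzK, Real.dist_eq] at h1
    linarith
  · unfold lev
    rw [lap_eq]
    apply laplacian_nonneg
    · have h2 : ContDiff ℝ 2 H := by exact_mod_cast (contDiff_infty.mp hHs 2)
      exact h2.comp (by fun_prop)
    · -- small circles
      have hv : 0 < δ / (‖v‖ + 1) := by positivity
      have hev : ∀ᶠ ρ in 𝓝[>] (0:ℝ), ρ ∈ Ioo 0 (δ / (‖v‖ + 1)) := Ioo_mem_nhdsGT hv
      filter_upwards [hev] with ρ hρ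
      have hρ0 : 0 < ρ := hρ.1
      have hρv : ‖(ρ : ℂ) • v‖ < δ := by
        rw [norm_smul, Complex.norm_real, Real.norm_of_nonneg hρ0.le]
        have h3 := hρ.2
        rw [lt_div_iff₀ (by positivity)] at h3
        nlinarith [norm_nonneg v]
      have e1 : Real.circleAverage (fun ζ : ℂ => H (z + ζ • v)) 0 ρ =
          Real.circleAverage (fun ζ : ℂ => H (z + ζ • ((ρ : ℂ) • v))) 0 1 := by
        rw [Real.circleAverage_def, Real.circleAverage_def]
        congr 1
        apply intervalIntegral.integral_congr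
        intro θ _
        simp only
        congr 2
        rw [smul_smul]
        congr 1
        simp [circleMap]
        ring
      rw [e1, zero_smul, add_zero]
      apply conv_sub hK hGK φ
      intro t ht
      rw [hφ] at ht
      have htδ : ‖t‖ < δ := ht.trans_le hsδ
      have hz' := hz
      rw [mem_ball, dist_eq_norm] at hz'
      have h4 : ‖z - t - z0‖ + ‖(ρ : ℂ) • v‖ < r := by
        have h5 : z - t - z0 = (z - z0) - t := by abel
        rw [h5]
        have := norm_sub_le (z - z0) t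
        linarith
      have h6 := hsub (z - t) ((ρ : ℂ) • v) h4
      have hzt : z - t ∈ K := by
        have := hin z hz t htδ 0 (by simpa using hδ)
        simpa using this
      rw [Set.indicator_of_mem hzt]
      refine h6.trans (le_of_eq ?_)
      apply Real.circleAverage_congr_sphere
      intro ζ hζ
      rw [abs_one, mem_sphere, dist_zero_right] at hζ
      simp only
      rw [Set.indicator_of_mem]
      apply hin z hz t htδ
      rw [norm_smul, hζ, one_mul]
      exact hρv

end Pool.Agent.Y475.RB
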