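import Pool.Agent.Y503.RB.Stm

/-!
# Job RB-JAC: linear algebra of the Jacobian (helper475)
-/

set_option autoImplicit false

open scoped RealInnerProductSpace

namespace Pool.Agent.Y475.RB

open Pool.Agent.Y503.RB

theorem gram (a₁ a₂ a₃ a₄ b₁ b₂ b₃ b₄ : E4) :
    (cols a₁ a₂ a₃ a₄).transpose * cols b₁ b₂ b₃ b₄ =
      !![⟪a₁, b₁⟫, ⟪a₁, b₂⟫, ⟪a₁, b₃⟫, ⟪a₁, b₄⟫; ⟪a₂, b₁⟫, ⟪a₂, b₂⟫, ⟪a₂, b₃⟫, ⟪a₂, b₄⟫;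
         ⟪a₃, b₁⟫, ⟪a₃, b₂⟫, ⟪a₃, b₃⟫, ⟪a₃, b₄⟫; ⟪a₄, b₁⟫, ⟪a₄, b₂⟫, ⟪a₄, b₃⟫, ⟪a₄, b₄⟫] := by
  ext i j
  rw [Matrix.mul_apply]
  fin_cases i <;> fin_cases j <;>
    simp [cols, PiLp.inner_apply, mul_comm]

theorem det4 (a b c d e f g : ℝ) :
    (!![a, b, 0, 0; c, d, 0, 0; e, f, g, 0; 0, 0, 0, 1] : Matrix (Fin 4) (Fin 4) ℝ).det =
      g * (a * d - b * c) := by
  simp [Matrix.det_succ_row_zero, Fin.sum_univ_succ, Matrix.submatrix_apply, Fin.succAbove]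
  ring

theorem jac : St_JAC := by
  intro b₁ b₂ n m G w₁ w₂ w₃ u₁ u₂ u₃ δ₁ δ₂ δ₃ ρ hn hm hG hnm hnb1 hnb2 hmb1 hmb2 hnw1 hnw2 hw3
    hu1 hu2 hu3 hGu1 hGu2 hGu3
  have hnn : ⟪n, n⟫ = 1 := by rw [real_inner_self_eq_norm_sq, hn]; norm_num
  have hmm : ⟪m, m⟫ = 1 := by rw [real_inner_self_eq_norm_sq, hm]; norm_num
  have hGG : ⟪G, G⟫ = 1 := by rw [real_inner_self_eq_norm_sq, hG]; norm_num
  have hnw3 : ⟪n, w₃⟫ = 0 := by rw [hw3, inner_smul_right, hnm, mul_zero]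
  have key : ∀ (w w' u u' : E4) (δ δ' : ℝ), ⟪n, w⟫ = 0 → ⟪n, w'⟫ = 0 → u = w + δ • (n + G) →
      u' = w' + δ' • (n + G) → ⟪G, u⟫ = 0 → ⟪G, u'⟫ = 0 → ⟪u, u'⟫ = ⟪w, w'⟫ := by
    intro w w' u u' δ δ' hw hw' hu hu' h1 h2
    have e0 : ⟪G, n⟫ = ⟪n, G⟫ := real_inner_comm _ _
    have e1 : ⟪w, G⟫ = -δ * (1 + ⟪n, G⟫) := by
      rw [hu, inner_add_right, inner_smul_right, inner_add_right, hGG, e0,
        real_inner_comm w G] at h1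
      linarith
    have e2 : ⟪G, w'⟫ = -δ' * (1 + ⟪n, G⟫) := by
      rw [hu', inner_add_right, inner_smul_right, inner_add_right, hGG, e0] at h2
      linarith
    have e3 : ⟪w, n⟫ = 0 := by rw [real_inner_comm, hw]
    rw [hu, hu']
    simp only [inner_add_left, inner_add_right, inner_smul_left, inner_smul_right, hnn, hGG,
      conj_trivial, e0, hw', e1, e2, e3]
    ring
  have k11 := key w₁ w₁ u₁ u₁ δ₁ δ₁ hnw1 hnw1 hu1 hu1 hGu1 hGu1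
  have k12 := key w₁ w₂ u₁ u₂ δ₁ δ₂ hnw1 hnw2 hu1 hu2 hGu1 hGu2
  have k13 := key w₁ w₃ u₁ u₃ δ₁ δ₃ hnw1 hnw3 hu1 hu3 hGu1 hGu3
  have k21 := key w₂ w₁ u₂ u₁ δ₂ δ₁ hnw2 hnw1 hu2 hu1 hGu2 hGu1
  have k22 := key w₂ w₂ u₂ u₂ δ₂ δ₂ hnw2 hnw2 hu2 hu2 hGu2 hGu2
  have k23 := key w₂ w₃ u₂ u₃ δ₂ δ₃ hnw2 hnw3 hu2 hu3 hGu2 hGu3
  have k31 := key w₃ w₁ u₃ u₁ δ₃ δ₁ hnw3 hnw1 hu3 hu1 hGu3 hGu1
  have k32 := key w₃ w₂ u₃ u₂ δ₃ δ₂ hnw3 hnw2 hu3 hu2 hGu3 hGu2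
  have k33 := key w₃ w₃ u₃ u₃ δ₃ δ₃ hnw3 hnw3 hu3 hu3 hGu3 hGu3
  have c1 : ⟪u₁, G⟫ = 0 := by rw [real_inner_comm, hGu1]
  have c2 : ⟪u₂, G⟫ = 0 := by rw [real_inner_comm, hGu2]
  have c3 : ⟪u₃, G⟫ = 0 := by rw [real_inner_comm, hGu3]
  have d1 : ⟪w₁, n⟫ = 0 := by rw [real_inner_comm, hnw1]
  have d2 : ⟪w₂, n⟫ = 0 := by rw [real_inner_comm, hnw2]
  have d3 : ⟪w₃, n⟫ = 0 := by rw [real_inner_comm, hnw3]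
  have hAW : (cols u₁ u₂ u₃ G).transpose * cols u₁ u₂ u₃ G =
      (cols w₁ w₂ w₃ n).transpose * cols w₁ w₂ w₃ n := by
    rw [gram, gram, k11, k12, k13, k21, k22, k23, k31, k32, k33, c1, c2, c3, d1, d2, d3, hGu1, hGu2,
      hGu3, hnw1, hnw2, hnw3, hnn, hGG]
  have h1 : (cols u₁ u₂ u₃ G).det ^ 2 = (cols w₁ w₂ w₃ n).det ^ 2 := by
    have := congrArg Matrix.det hAW
    rw [Matrix.det_mul, Matrix.det_mul, Matrix.det_transpose, Matrix.det_transpose] at this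
    rw [sq, sq, this]
  have b1m : ⟪b₁, m⟫ = 0 := by rw [real_inner_comm, hmb1]
  have b2m : ⟪b₂, m⟫ = 0 := by rw [real_inner_comm, hmb2]
  have b1n : ⟪b₁, n⟫ = 0 := by rw [real_inner_comm, hnb1]
  have b2n : ⟪b₂, n⟫ = 0 := by rw [real_inner_comm, hnb2]
  have mn : ⟪m, n⟫ = 0 := by rw [real_inner_comm, hnm]
  have h2 : (cols b₁ b₂ m n).det * (cols w₁ w₂ w₃ n).det =
      ρ * (⟪b₁, w₁⟫ * ⟪b₂, w₂⟫ - ⟪b₁, w₂⟫ * ⟪b₂, w₁⟫) := by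
    rw [← Matrix.det_transpose (cols b₁ b₂ m n), ← Matrix.det_mul, gram]
    have e1 : ⟪b₁, w₃⟫ = 0 := by rw [hw3, inner_smul_right, b1m, mul_zero]
    have e2 : ⟪b₂, w₃⟫ = 0 := by rw [hw3, inner_smul_right, b2m, mul_zero]
    have e3 : ⟪m, w₃⟫ = ρ := by rw [hw3, inner_smul_right, hmm, mul_one]
    rw [e1, e2, e3, b1n, b2n, mn, hnw1, hnw2, hnw3, hnn, det4]
  have h3 : (cols b₁ b₂ m n).det ^ 2 = ⟪b₁, b₁⟫ * ⟪b₂, b₂⟫ - ⟪b₁, b₂⟫ ^ 2 := by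
    have e0 : (cols b₁ b₂ m n).det ^ 2 = ((cols b₁ b₂ m n).transpose * cols b₁ b₂ m n).det := by
      rw [Matrix.det_mul, Matrix.det_transpose, sq]
    rw [e0, gram, b1m, b2m, b1n, b2n, mn, hmb1, hmb2, hnb1, hnb2, hnm, hnn, hmm, det4,
      real_inner_comm b₁ b₂]
    ring
  rw [h1, ← h3]
  calc _ = ((cols b₁ b₂ m n).det * (cols w₁ w₂ w₃ n).det) ^ 2 := by ring
    _ = _ := by rw [h2]; ring

end Pool.Agent.Y475.RB
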